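import Mathlib
import Pool.Agent.Helper75.UF.Defs
import Pool.Agent.H601Z.FormDefs
import Pool.Agent.H601Z.FormC

set_option autoImplicit false

namespace Pool.Agent.Results.MP_58728c_al.AFactorisation

open Pool.Agent.Helper75.UF Pool.Agent.H601Z.Form

/-- Q1 holds: every subformation `F ≠ F F` of a one-generated saturated formation is a finite
product `F₁ ⋯ F_t` (`t ≥ 1`) of non-decomposable formations. -/
theorem result (G₀ : Type) [Group G₀] [Finite G₀] (F : GroupClass) (hF : IsFormation F)
    (hsub : ∀ (H : Type) [Group H], F H → SatGen G₀ H) (hne : F ≠ Product F F) :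
    ∃ (F₁ : GroupClass) (l : List GroupClass),
      (∀ A ∈ F₁ :: l, NonDecomposable A) ∧ F = prodList F₁ l :=
  main G₀ F hF hsub hne

end Pool.Agent.Results.MP_58728c_al.AFactorisation
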